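import Pool.Agent.N119.PS.Stm

set_option autoImplicit false

/-!
# Translation lengths of periodic words (project PSC, leaf LEN)
-/

namespace Pool.Agent.N833.PSC.LEN

open Pool.Agent.H472R3 Pool.Agent.H67R3.FSR Pool.Agent.H67R4.SR Pool.Agent.N119.PS

variable {N : ℕ}

/-- powers of an element at a point of its axis -/
theorem axis_pow (A : FTree N) (hA : A.Free) (g : FreeGroup (Fin N)) (hg : g ≠ 1) (x : A.T)
    (hx : dist x (g • x) = A.len g) (n : ℕ) :
    G (lenFn A x) (g ^ (n + 1))⁻¹ g = 0 ∧ (lenFn A x).L (g ^ (n + 1)) = (n + 1) * A.len g := by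
  have h0 : (lenFn A x).L g = A.len g := hx
  have hpos := len_pos A hA g hg
  have h1 := len_eq' A hA x g hg
  have hG : G (lenFn A x) g⁻¹ g = 0 := by
    unfold G
    rw [inv_inv, (lenFn A x).inv]
    linarith
  induction n with
  | zero =>
    rw [zero_add, pow_one]
    refine ⟨hG, ?_⟩
    rw [h0]
    push_cast
    ring
  | succ n ih =>
    obtain ⟨i1, i2⟩ := ih
    rw [pow_succ g (n + 1)]
    refine ⟨perp_mul_right (lenFn A x) i1 (by rw [h0]; exact hpos) hG, ?_⟩
    rw [L_mul_perp (lenFn A x) i1, i2, h0]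
    push_cast
    ring

/-- the translation length of a power -/
theorem len_pow (A : FTree N) (hA : A.Free) (g : FreeGroup (Fin N)) (hg : g ≠ 1) (n : ℕ) :
    g ^ (n + 1) ≠ 1 ∧ A.len (g ^ (n + 1)) = (n + 1) * A.len g := by
  obtain ⟨x, hx⟩ := exists_axis A g
  have hpos := len_pos A hA g hg
  have h1 := (axis_pow A hA g hg x hx n).2
  have hne : g ^ (n + 1) ≠ 1 := by
    intro h
    rw [h, (lenFn A x).one] at h1
    have : 0 < ((n : ℝ) + 1) * A.len g := by positivity
    linarith
  refine ⟨hne, ?_⟩
  have h2 := (axis_pow A hA g hg x hx (2 * n + 1)).2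
  have e : g ^ (n + 1) * g ^ (n + 1) = g ^ (2 * n + 1 + 1) := by
    rw [← pow_add]
    congr 1
    ring
  rw [len_eq' A hA x _ hne, e, h2, h1]
  push_cast
  ring

theorem sum_shift (f : ℕ → ℝ) (m : ℕ) (hf : ∀ i, f (i + m) = f i) (t : ℕ) :
    ∑ r ∈ Finset.range m, f (r + t) = ∑ r ∈ Finset.range m, f r := by
  induction t with
  | zero => rfl
  | succ t ih =>
    rw [← ih]
    have h1 := Finset.sum_range_succ (fun r => f (r + t)) m
    have h2 := Finset.sum_range_succ' (fun r => f (r + t)) m
    have h3 : f (m + t) = f (0 + t) := by rw [add_comm m t, hf, zero_add]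
    have h4 : ∑ r ∈ Finset.range m, f (r + (t + 1)) = ∑ r ∈ Finset.range m, f (r + 1 + t) := by
      apply Finset.sum_congr rfl
      intro r _
      congr 1
      ring
    rw [h4]
    linarith

theorem wd_add (p : PerWord N) (r a b : ℕ) : p.wd r (a + b) = p.wd r a ++ p.wd (r + a) b := by
  unfold PerWord.wd
  rw [List.range_add, List.map_append, List.map_map]
  congr 1
  apply List.map_congr_left
  intro t _
  simp only [Function.comp]
  rw [add_assoc]

theorem t (h : S_PER) : S_LEN := by
  intro N A hA x p n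
  obtain ⟨hred, hw, hnorm, hg1, hadd, hper, hconj⟩ := h N p
  set ℓ := lenFn A x with hℓ
  set m := p.m with hm
  have hmpos : 0 < m := p.pos
  have hmR : (0 : ℝ) < m := by exact_mod_cast hmpos
  -- the case `n = 0`
  rcases Nat.eq_zero_or_pos n with hn | hn
  · subst hn
    have e : ∀ i, ℓ.L (p.el i 0) = 0 := fun i => by
      have : p.el i 0 = 1 := rfl
      rw [this, ℓ.one]
    rw [Finset.sum_eq_zero fun i _ => e i]
    refine ⟨by simp, fun C hC => ?_⟩
    have := hC.1
    rw [Nat.cast_zero, zero_mul, zero_add]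
    positivity
  obtain ⟨k, rfl⟩ : ∃ k, n = k + 1 := ⟨n - 1, by omega⟩
  set n := k + 1 with hnk
  -- periodicity
  have hper' : ∀ (j i a : ℕ), p.el (i + j * m) a = p.el i a := by
    intro j
    induction j with
    | zero => intro i a; rw [zero_mul, add_zero]
    | succ j ih =>
      intro i a
      have : i + (j + 1) * m = (i + j * m) + m := by ring
      rw [this, hper, ih]
  have hpow : ∀ (j r : ℕ), p.el r (j * m) = (p.el r m) ^ j := by
    intro j
    induction j with
    | zero => intro r; rw [zero_mul, pow_zero]; rfl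
    | succ j ih =>
      intro r
      rw [Nat.succ_mul, hadd, ih, hper', pow_succ]
  -- the conjugates
  have hne : ∀ r, p.el r m ≠ 1 := by
    intro r hr
    have h1 := hconj r
    rw [hr] at h1
    exact hg1 (isConj_one_right.mp h1)
  have hlen : ∀ r, A.len (p.el r m) = A.len p.g := by
    intro r
    obtain ⟨c, hc⟩ := isConj_iff.mp (hconj r)
    rw [← hc, len_conj]
  have hlenn : ∀ r, (p.el r m) ^ n ≠ 1 ∧ A.len ((p.el r m) ^ n) = n * A.len p.g := by
    intro r
    have h1 := len_pow A hA.1 (p.el r m) (hne r) k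
    refine ⟨h1.1, ?_⟩
    rw [hnk, h1.2, hlen]
    push_cast
    ring
  have hblk : ∀ r, p.el r (m * n) = (p.el r m) ^ n := fun r => by rw [mul_comm, hpow]
  -- sums over shifts
  set S := ∑ i ∈ Finset.range m, ℓ.L (p.el i n) with hS
  have hshift : ∑ r ∈ Finset.range m, ∑ j ∈ Finset.range m, ℓ.L (p.el (r + j * n) n) = m * S := by
    rw [Finset.sum_comm]
    have : ∀ j ∈ Finset.range m, ∑ r ∈ Finset.range m, ℓ.L (p.el (r + j * n) n) = S := by
      intro j _
      exact sum_shift (fun i => ℓ.L (p.el i n)) m (fun i => congrArg ℓ.L (hper i n)) (j * n)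
    rw [Finset.sum_congr rfl this, Finset.sum_const, Finset.card_range, nsmul_eq_mul]
  refine ⟨?_, fun C hC => ?_⟩
  · have hsub : ∀ b r : ℕ, ℓ.L (p.el r (b * n)) ≤ ∑ j ∈ Finset.range b, ℓ.L (p.el (r + j * n) n) := by
      intro b r
      induction b with
      | zero =>
        have : p.el r (0 * n) = 1 := by rw [zero_mul]; rfl
        rw [this, ℓ.one]
        simp
      | succ b ih =>
        rw [Nat.succ_mul, hadd, Finset.sum_range_succ]
        exact (tri ℓ _ _).trans (by linarith)
    have h1 : ∀ r ∈ Finset.range m, (n : ℝ) * A.len p.g ≤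
        ∑ j ∈ Finset.range m, ℓ.L (p.el (r + j * n) n) := by
      intro r _
      rw [← (hlenn r).2, ← hblk]
      exact (A.le_dist _ x).trans (hsub m r)
    have h2 := Finset.sum_le_sum h1
    rw [hshift, Finset.sum_const, Finset.card_range, nsmul_eq_mul] at h2
    exact le_of_mul_le_mul_left h2 hmR
  · have hcc : ∀ r a b : ℕ, ℓ.L (p.el r a) + ℓ.L (p.el (r + a) b) ≤ ℓ.L (p.el r (a + b)) + 2 * C := by
      intro r a b
      have h1 := hC.2 (p.el r a) (p.el (r + a) b) (by
        rw [hw, hw, ← wd_add]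
        exact hred r (a + b))
      rw [← hadd] at h1
      exact h1
    have hsup : ∀ b r : ℕ, ∑ j ∈ Finset.range (b + 1), ℓ.L (p.el (r + j * n) n) ≤
        ℓ.L (p.el r ((b + 1) * n)) + 2 * C * b := by
      intro b r
      induction b with
      | zero => simp
      | succ b ih =>
        rw [Finset.sum_range_succ]
        have h1 := hcc r ((b + 1) * n) n
        have e : (b + 1 + 1) * n = (b + 1) * n + n := by ring
        rw [e]
        push_cast
        linarith
    have h1 : ∀ r ∈ Finset.range m, ∑ j ∈ Finset.range m, ℓ.L (p.el (r + j * n) n) ≤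
        (n : ℝ) * A.len p.g + 2 * C * m := by
      intro r _
      obtain ⟨q, hq⟩ : ∃ q, m = q + 1 := ⟨m - 1, by omega⟩
      have h2 := hsup q r
      rw [← hq] at h2
      have h3 := hcc r (m * n) (m * n)
      have e1 : p.el (r + m * n) (m * n) = p.el r (m * n) := by
        rw [mul_comm m n, hper']
      rw [hadd, e1, hblk] at h3
      have h4 := len_eq' A hA.1 x _ (hlenn r).1
      rw [(hlenn r).2] at h4
      rw [hblk] at h2
      have hqR : (m : ℝ) = q + 1 := by exact_mod_cast hq
      rw [hqR]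
      linarith
    have h2 := Finset.sum_le_sum h1
    rw [hshift, Finset.sum_const, Finset.card_range, nsmul_eq_mul] at h2
    exact le_of_mul_le_mul_left h2 hmR

end Pool.Agent.N833.PSC.LEN
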